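import Mathlib

set_option autoImplicit false

namespace Pool.Agent.Results.MP_cb1e0a_co.InfiniteTorus

open Set Filter Topology

/-- A game space: a (nonempty) compact geodesic metric space.  Any two points `x`, `y` are joined
by an isometric copy of the interval `[0, dist x y]`. -/
def IsGameSpace (X : Type) [MetricSpace X] : Prop :=
  CompactSpace X ∧ Nonempty X ∧ ∀ x y : X, ∃ γ : ℝ → X, γ 0 = x ∧ γ (dist x y) = y ∧
    ∀ s ∈ Icc (0 : ℝ) (dist x y), ∀ t ∈ Icc (0 : ℝ) (dist x y), dist (γ s) (γ t) = |s - t|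

/-- The isometry group acts transitively. -/
def IsHomogeneous (X : Type) [MetricSpace X] : Prop :=
  ∀ x y : X, ∃ i : X ≃ᵢ X, i x = y

/-- `history f n` is the list `[f n, ..., f 1, f 0]`. -/
def history {A : Type} (f : ℕ → A) : ℕ → List A
  | 0 => [f 0]
  | n + 1 => f (n + 1) :: history f n

/-- An agility function: positive, with divergent sum (`τ n` bounds all moves of step `n + 1`). -/
def IsAgility (τ : ℕ → ℝ) : Prop := (∀ n, 0 < τ n) ∧ ¬ Summable τ

/-- `k` cops can win on `X`: whatever initial positions `r₀`, `c₀` and agility function `τ` the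
robber's player chooses, there is a strategy `σ` of the cops (the positions of the cops after
step `n` depend on the positions `r 0, ..., r n` of the robber) such that for every sequence `r`
of legal moves of the robber all moves of the cops are legal and the infimum of the distances
between the robber and the cops over all steps is zero. -/
def CopsWin (X : Type) [MetricSpace X] (k : ℕ) : Prop :=
  ∀ (r₀ : X) (c₀ : Fin k → X) (τ : ℕ → ℝ), IsAgility τ →
    ∃ σ : List X → Fin k → X, σ [r₀] = c₀ ∧
      ∀ r : ℕ → X, r 0 = r₀ → (∀ n, dist (r n) (r (n + 1)) ≤ τ n) →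
        (∀ n i, dist (σ (history r n) i) (σ (history r (n + 1)) i) ≤ τ n) ∧
        ∀ ε > 0, ∃ n i, dist (r n) (σ (history r n) i) < ε

/-- The robber has a winning strategy against `k` cops on `X`: there are initial positions
`r₀`, `c₀`, an agility function `τ`, and a strategy `ρ` of the robber (his position after step
`n + 1` depends on the positions `c 0, ..., c n` of the cops) all of whose moves are legal and
which, against all legal moves of the cops, keeps him forever at distance at least some fixed
`ε > 0` from all cops. -/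
def RobberWins (X : Type) [MetricSpace X] (k : ℕ) : Prop :=
  ∃ (r₀ : X) (c₀ : Fin k → X) (τ : ℕ → ℝ), IsAgility τ ∧
    ∃ ρ : List (Fin k → X) → X, ∃ ε > 0, ∀ c : ℕ → Fin k → X, c 0 = c₀ →
      ∀ r : ℕ → X, r 0 = r₀ → (∀ n, r (n + 1) = ρ (history c n)) →
        (∀ n, dist (r n) (r (n + 1)) ≤ τ n) ∧
        ((∀ n i, dist (c n i) (c (n + 1) i) ≤ τ n) → ∀ n i, ε ≤ dist (r n) (c n i))

/-- The cop number of `X`: the least `k ≥ 1` such that `k` cops can win on `X`, and `∞` if there
is no such `k`. -/
noncomputable def copNumber (X : Type) [MetricSpace X] : ℕ∞ :=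
  ⨅ k : {k : ℕ // 1 ≤ k ∧ CopsWin X k}, ((k : ℕ) : ℕ∞)

/-! ### A winning strategy of the robber defeats every strategy of the cops -/

theorem not_copsWin_of_robberWins {X : Type} [MetricSpace X] {k : ℕ} (h : RobberWins X k) :
    ¬ CopsWin X k := by
  intro hc
  obtain ⟨r₀, c₀, τ, hτ, ρ, ε, hε, hρ⟩ := h
  obtain ⟨σ, hσ0, hσ⟩ := hc r₀ c₀ τ hτ
  -- the joint play, as a pair of histories
  let P : ℕ → List X × List (Fin k → X) := fun n => Nat.rec ([r₀], [σ [r₀]])
    (fun _ p => (ρ p.2 :: p.1, σ (ρ p.2 :: p.1) :: p.2)) n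
  have hP0 : P 0 = ([r₀], [σ [r₀]]) := rfl
  have hPs : ∀ n, P (n + 1) = (ρ (P n).2 :: (P n).1, σ (ρ (P n).2 :: (P n).1) :: (P n).2) :=
    fun n => rfl
  let r : ℕ → X := fun n => Nat.casesOn n r₀ (fun m => ρ (P m).2)
  have hr0 : r 0 = r₀ := rfl
  have hrs : ∀ n, r (n + 1) = ρ (P n).2 := fun n => rfl
  have hh : ∀ n, history r n = (P n).1 := by
    intro n
    induction n with
    | zero => simp [history, hP0, hr0]
    | succ n ih => rw [history, ih, hPs, hrs]
  let c : ℕ → Fin k → X := fun n => σ (history r n)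
  have hc0 : c 0 = c₀ := by
    show σ (history r 0) = c₀
    rw [hh, hP0]; exact hσ0
  have hhc : ∀ n, history c n = (P n).2 := by
    intro n
    induction n with
    | zero =>
      show [σ (history r 0)] = (P 0).2
      rw [hh, hP0]
    | succ n ih =>
      rw [history, ih, hPs]
      show σ (history r (n + 1)) :: (P n).2 = _
      rw [hh, hPs]
  have hrρ : ∀ n, r (n + 1) = ρ (history c n) := by
    intro n; rw [hhc, hrs]
  obtain ⟨hleg, hfar⟩ := hρ c hc0 r hr0 hrρ
  obtain ⟨hcleg, hcl⟩ := hσ r hr0 hleg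
  obtain ⟨n, i, hni⟩ := hcl ε hε
  have := hfar hcleg n i
  exact absurd hni (not_lt.mpr this)

/-! ### The circle of length one -/

/-- The circle of length one. -/
abbrev Circ : Type := AddCircle (1 : ℝ)

theorem norm_coe_of_le {x : ℝ} (hx : |x| ≤ 1 / 2) : ‖(x : Circ)‖ = |x| :=
  (AddCircle.norm_coe_eq_abs_iff 1 one_ne_zero).2 (by simpa using hx)

theorem norm_le_half (a : Circ) : ‖a‖ ≤ 1 / 2 := by
  have := AddCircle.norm_le_half_period (1 : ℝ) (x := a) one_ne_zero
  simpa using this

theorem dist_le_half (a b : Circ) : dist a b ≤ 1 / 2 := by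
  rw [dist_eq_norm]; exact norm_le_half _

theorem exists_rep (a : Circ) : ∃ δ : ℝ, (δ : Circ) = a ∧ |δ| = ‖a‖ := by
  induction a using QuotientAddGroup.induction_on with
  | H x =>
    refine ⟨x - round x, ?_, ?_⟩
    · have h0 : (((round x : ℤ) : ℝ) : Circ) = 0 := by
        rw [AddCircle.coe_eq_zero_iff]
        exact ⟨round x, by simp⟩
      rw [AddCircle.coe_sub, h0, sub_zero]
    · have := AddCircle.norm_eq (1 : ℝ) (x := x)
      rw [show ((x : Circ) : Circ) = (x : Circ) from rfl] at *
      rw [this]; simp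

/-- One can always run away from a point on the circle by small steps. -/
theorem exists_flee (s : ℝ) (hs0 : 0 ≤ s) (hs : s ≤ 1 / 8) (a b : Circ) :
    ∃ a' : Circ, dist a a' ≤ s ∧
      ∀ b', dist b b' ≤ s → 1 / 8 ≤ dist a b → 1 / 8 ≤ dist a' b' := by
  obtain ⟨δ, hδ, hδn⟩ := exists_rep (a - b)
  by_cases h4 : |δ| ≤ 1 / 4
  · obtain ⟨e, he, hde⟩ : ∃ e : ℝ, |e| = s ∧ |δ + e| = |δ| + s := by
      rcases le_total 0 δ with h | h
      · exact ⟨s, abs_of_nonneg hs0, by rw [abs_of_nonneg h, abs_of_nonneg (by linarith)]⟩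
      · exact ⟨-s, by rw [abs_neg, abs_of_nonneg hs0], by
          rw [abs_of_nonpos h, abs_of_nonpos (by linarith)]; ring⟩
    refine ⟨a + (e : Circ), ?_, ?_⟩
    · rw [dist_eq_norm, show a - (a + (e : Circ)) = -(e : Circ) by abel, norm_neg,
        norm_coe_of_le (by rw [he]; linarith), he]
    · intro b' hb' hab
      have h1 : dist (a + (e : Circ)) b = |δ| + s := by
        rw [dist_eq_norm, show a + (e : Circ) - b = ((δ + e : ℝ) : Circ) by
          rw [AddCircle.coe_add, hδ]; abel, norm_coe_of_le (by rw [hde]; linarith), hde]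
      have h2 : dist a b = |δ| := by rw [dist_eq_norm, hδn]
      have h3 := dist_triangle (a + (e : Circ)) b' b
      rw [dist_comm b' b] at h3
      linarith
  · refine ⟨a, by simpa using hs0, ?_⟩
    intro b' hb' _
    have h2 : dist a b = |δ| := by rw [dist_eq_norm, hδn]
    have h3 := dist_triangle a b' b
    rw [dist_comm b' b] at h3
    push Not at h4
    linarith

/-! ### The infinite torus with the weighted supremum metric -/

/-- The product of countably many circles. -/
def Torus : Type := ℕ → Circ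

namespace Torus

/-- The distance `sup_n 2^{-n} dist (x n) (y n)`. -/
noncomputable def D (x y : Torus) : ℝ := ⨆ n : ℕ, (1 / 2 : ℝ) ^ n * dist (x n) (y n)

theorem bdd (x y : Torus) : BddAbove (range fun n : ℕ => (1 / 2 : ℝ) ^ n * dist (x n) (y n)) := by
  refine ⟨1, ?_⟩
  rintro _ ⟨n, rfl⟩
  have h1 : (1 / 2 : ℝ) ^ n ≤ 1 := pow_le_one₀ (by norm_num) (by norm_num)
  have h0 : (0 : ℝ) ≤ (1 / 2 : ℝ) ^ n := by positivity
  have h2 := dist_le_half (x n) (y n)
  have h3 := dist_nonneg (x := x n) (y := y n)
  show (1 / 2 : ℝ) ^ n * dist (x n) (y n) ≤ 1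
  nlinarith

theorem le_D (x y : Torus) (n : ℕ) : (1 / 2 : ℝ) ^ n * dist (x n) (y n) ≤ D x y :=
  le_ciSup (bdd x y) n

theorem D_le {x y : Torus} {C : ℝ} (h : ∀ n : ℕ, (1 / 2 : ℝ) ^ n * dist (x n) (y n) ≤ C) :
    D x y ≤ C := ciSup_le h

theorem D_nonneg (x y : Torus) : 0 ≤ D x y := by
  refine le_trans ?_ (le_D x y 0)
  positivity

noncomputable instance : MetricSpace Torus where
  dist := D
  dist_self x := by
    refine le_antisymm (D_le fun n => by simp) (D_nonneg x x)
  dist_comm x y := by
    show D x y = D y x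
    unfold D
    simp only [dist_comm]
  dist_triangle x y z := by
    refine D_le fun n => ?_
    have h1 := le_D x y n
    have h2 := le_D y z n
    have h3 := dist_triangle (x n) (y n) (z n)
    have h0 : (0 : ℝ) ≤ (1 / 2 : ℝ) ^ n := by positivity
    nlinarith [mul_le_mul_of_nonneg_left h3 h0]
  eq_of_dist_eq_zero := by
    intro x y h
    funext n
    have h1 := le_D x y n
    have h2 : D x y = 0 := h
    rw [h2] at h1
    have h0 : (0 : ℝ) < (1 / 2 : ℝ) ^ n := by positivity
    have h3 : dist (x n) (y n) ≤ 0 := by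
      by_contra hcon
      push Not at hcon
      have := mul_pos h0 hcon
      linarith
    exact dist_le_zero.mp h3

theorem dist_eq (x y : Torus) : dist x y = D x y := rfl

/-- The map from the product space. -/
def ofFun (x : ℕ → Circ) : Torus := x

theorem continuous_ofFun : Continuous ofFun := by
  rw [Metric.continuous_iff']
  intro a ε hε
  obtain ⟨N, hN⟩ := exists_pow_lt_of_lt_one (show (0 : ℝ) < ε / 2 by positivity)
    (show (1 / 2 : ℝ) < 1 by norm_num)
  have hev : ∀ᶠ x : ℕ → Circ in 𝓝 a, ∀ n ∈ Finset.range N, dist (x n) (a n) < ε / 2 := by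
    rw [Filter.eventually_all_finset]
    intro n _
    have hcont : Continuous fun x : ℕ → Circ => x n := continuous_apply n
    have := Metric.continuous_iff'.mp hcont a (ε / 2) (by positivity)
    exact this
  filter_upwards [hev] with x hx
  rw [dist_eq]
  refine lt_of_le_of_lt (D_le (C := ε / 2) fun n => ?_) (by linarith)
  show (1 / 2 : ℝ) ^ n * dist (x n) (a n) ≤ ε / 2
  have h0 : (0 : ℝ) ≤ (1 / 2 : ℝ) ^ n := by positivity
  have h3 := dist_nonneg (x := x n) (y := a n)
  by_cases hn : n < N
  · have h1 : (1 / 2 : ℝ) ^ n ≤ 1 := pow_le_one₀ (by norm_num) (by norm_num)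
    have h2 := hx n (Finset.mem_range.mpr hn)
    nlinarith
  · push Not at hn
    have h1 : (1 / 2 : ℝ) ^ n ≤ (1 / 2 : ℝ) ^ N :=
      pow_le_pow_of_le_one (by norm_num) (by norm_num) hn
    have h2 := dist_le_half (x n) (a n)
    nlinarith

theorem compactSpace : CompactSpace Torus := by
  have hs : Function.Surjective ofFun := fun x => ⟨x, rfl⟩
  refine ⟨?_⟩
  rw [← hs.range_eq]
  exact isCompact_range continuous_ofFun

theorem geodesic (x y : Torus) : ∃ γ : ℝ → Torus, γ 0 = x ∧ γ (dist x y) = y ∧
    ∀ s ∈ Icc (0 : ℝ) (dist x y), ∀ t ∈ Icc (0 : ℝ) (dist x y), dist (γ s) (γ t) = |s - t| := by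
  rcases eq_or_ne (dist x y) 0 with h0 | h0
  · have hxy : x = y := dist_eq_zero.mp h0
    refine ⟨fun _ => x, rfl, by rw [hxy], ?_⟩
    intro s hs t ht
    rw [h0] at hs ht
    have hs' : s = 0 := le_antisymm hs.2 hs.1
    have ht' : t = 0 := le_antisymm ht.2 ht.1
    rw [hs', ht']; simp
  · have hL : 0 < dist x y := lt_of_le_of_ne dist_nonneg (Ne.symm h0)
    set L := dist x y with hLdef
    choose δ hδ hδn using fun n => exists_rep (y n - x n)
    let γ : ℝ → Torus := fun t n => x n + ((t / L * δ n : ℝ) : Circ)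
    refine ⟨γ, ?_, ?_, ?_⟩
    · funext n
      show x n + ((0 / L * δ n : ℝ) : Circ) = x n
      rw [zero_div, zero_mul]
      simp
    · funext n
      show x n + ((L / L * δ n : ℝ) : Circ) = y n
      rw [div_self h0, one_mul, hδ]
      abel
    · intro s hs t ht
      have hst : |s - t| ≤ L := by
        rw [abs_le]; constructor <;> linarith [hs.1, hs.2, ht.1, ht.2]
      have hc0 : 0 ≤ |s - t| / L := by positivity
      have hc1 : |s - t| / L ≤ 1 := by rw [div_le_one hL]; exact hst
      have key : ∀ n, dist (γ s n) (γ t n) = |s - t| / L * dist (x n) (y n) := by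
        intro n
        have e1 : γ s n - γ t n = ((((s - t) / L) * δ n : ℝ) : Circ) := by
          show (x n + ((s / L * δ n : ℝ) : Circ)) - (x n + ((t / L * δ n : ℝ) : Circ)) = _
          rw [show (s - t) / L * δ n = s / L * δ n - t / L * δ n by ring, AddCircle.coe_sub]
          abel
        have e2 : |((s - t) / L) * δ n| = |s - t| / L * dist (x n) (y n) := by
          rw [abs_mul, abs_div, abs_of_pos hL, hδn n, dist_comm, dist_eq_norm]
        have e3 : |((s - t) / L) * δ n| ≤ 1 / 2 := by
          rw [e2]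
          have h2 := dist_le_half (x n) (y n)
          have h3 := dist_nonneg (x := x n) (y := y n)
          nlinarith
        rw [dist_eq_norm, e1, norm_coe_of_le e3, e2]
      show D (γ s) (γ t) = |s - t|
      have e4 : D (γ s) (γ t) = |s - t| / L * D x y := by
        unfold D
        rw [Real.mul_iSup_of_nonneg hc0]
        congr 1
        funext n
        rw [key n]; ring
      rw [e4]
      have : D x y = L := rfl
      rw [this]
      field_simp

theorem isGameSpace : IsGameSpace Torus :=
  ⟨compactSpace, ⟨fun _ => 0⟩, geodesic⟩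

/-- Translation by `v`. -/
noncomputable def translate (v : Torus) : Torus ≃ᵢ Torus where
  toFun x := fun n => x n + v n
  invFun x := fun n => x n - v n
  left_inv x := by funext n; exact add_sub_cancel_right _ _
  right_inv x := by funext n; exact sub_add_cancel _ _
  isometry_toFun := by
    refine Isometry.of_dist_eq fun x y => ?_
    show D _ _ = D _ _
    unfold D
    simp only [dist_add_right]

theorem isHomogeneous : IsHomogeneous Torus := by
  intro x y
  refine ⟨translate (fun n => y n - x n), ?_⟩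
  funext n
  show x n + (y n - x n) = y n
  abel

/-! ### The strategy of the robber -/

open Classical in
/-- Run away from `b` starting at `a` with a step of length at most `s`. -/
noncomputable def flee (s : ℝ) (a b : Circ) : Circ :=
  if h : 0 ≤ s ∧ s ≤ 1 / 8 then (exists_flee s h.1 h.2 a b).choose else a

theorem dist_flee {s : ℝ} (hs0 : 0 ≤ s) (hs : s ≤ 1 / 8) (a b : Circ) : dist a (flee s a b) ≤ s := by
  unfold flee
  rw [dif_pos ⟨hs0, hs⟩]
  exact (exists_flee s hs0 hs a b).choose_spec.1

theorem flee_far {s : ℝ} (hs0 : 0 ≤ s) (hs : s ≤ 1 / 8) (a b b' : Circ) (hb : dist b b' ≤ s)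
    (hab : 1 / 8 ≤ dist a b) : 1 / 8 ≤ dist (flee s a b) b' := by
  unfold flee
  rw [dif_pos ⟨hs0, hs⟩]
  exact (exists_flee s hs0 hs a b).choose_spec.2 b' hb hab

/-- The step length in the `j`-th circle. -/
noncomputable def sc (k j : ℕ) : ℝ := 1 / 8 * (1 / 2) ^ (k - j)

theorem sc_nonneg (k j : ℕ) : 0 ≤ sc k j := by unfold sc; positivity

theorem sc_le (k j : ℕ) : sc k j ≤ 1 / 8 := by
  unfold sc
  have h1 : (1 / 2 : ℝ) ^ (k - j) ≤ 1 := pow_le_one₀ (by norm_num) (by norm_num)
  linarith

theorem sc_mul {k j : ℕ} (h : j ≤ k) : (1 / 2 : ℝ) ^ j * sc k j = 1 / 8 * (1 / 2) ^ k := by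
  unfold sc
  rw [show k = j + (k - j) by omega, pow_add]
  simp only [Nat.add_sub_cancel_left]
  ring

/-- One move of the robber. -/
noncomputable def step (k : ℕ) (x : Torus) (c : Fin k → Torus) : Torus :=
  fun j => if h : j < k then flee (sc k j) (x j) (c ⟨j, h⟩ j) else x j

theorem dist_step (k : ℕ) (x : Torus) (c : Fin k → Torus) :
    dist x (step k x c) ≤ 1 / 8 * (1 / 2) ^ k := by
  refine D_le fun j => ?_
  by_cases h : j < k
  · have h1 : step k x c j = flee (sc k j) (x j) (c ⟨j, h⟩ j) := by unfold step; rw [dif_pos h]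
    rw [h1, ← sc_mul h.le]
    exact mul_le_mul_of_nonneg_left (dist_flee (sc_nonneg k j) (sc_le k j) _ _) (by positivity)
  · have h1 : step k x c j = x j := by unfold step; rw [dif_neg h]
    rw [h1, dist_self, mul_zero]
    positivity

theorem coord_le {x y : Torus} {k j : ℕ} (h : j < k) (hxy : dist x y ≤ 1 / 8 * (1 / 2) ^ k) :
    dist (x j) (y j) ≤ sc k j := by
  have h1 := le_D x y j
  rw [dist_eq, ← sc_mul h.le] at hxy
  have h2 : (1 / 2 : ℝ) ^ j * dist (x j) (y j) ≤ (1 / 2 : ℝ) ^ j * sc k j := h1.trans hxy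
  exact le_of_mul_le_mul_left h2 (by positivity)

/-- The strategy of the robber as a function of the history of the cops. -/
noncomputable def strat (k : ℕ) : List (Fin k → Torus) → Torus
  | [] => fun _ => 0
  | c :: l => step k (strat k l) c

theorem robberWins (k : ℕ) : RobberWins Torus k := by
  refine ⟨fun _ => 0, fun _ _ => ((1 / 2 : ℝ) : Circ), fun _ => 1 / 8 * (1 / 2) ^ k,
    ⟨fun _ => by positivity, ?_⟩, strat k, 1 / 8 * (1 / 2) ^ k, by positivity, ?_⟩
  · rw [summable_const_iff]
    positivity
  intro c hc0 r hr0 hr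
  have hstep : ∀ n, r (n + 1) = step k (r n) (c n) := by
    intro n
    cases n with
    | zero =>
      rw [hr 0, hr0]
      rfl
    | succ n =>
      rw [hr (n + 1), hr n]
      rfl
  refine ⟨fun n => by rw [hstep n]; exact dist_step k _ _, ?_⟩
  intro hcl
  have key : ∀ n (i : Fin k), 1 / 8 ≤ dist (r n i) (c n i i) := by
    intro n
    induction n with
    | zero =>
      intro i
      rw [hr0, hc0]
      show (1 : ℝ) / 8 ≤ dist (0 : Circ) ((1 / 2 : ℝ) : Circ)
      rw [dist_eq_norm, zero_sub, norm_neg, norm_coe_of_le (by norm_num)]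
      norm_num
    | succ n ih =>
      intro i
      have h1 : step k (r n) (c n) i = flee (sc k i) (r n i) (c n i i) := by
        unfold step; rw [dif_pos i.2]
      rw [hstep n, h1]
      exact flee_far (sc_nonneg k i) (sc_le k i) _ _ _ (coord_le i.2 (hcl n i)) (ih i)
  intro n i
  have h1 := le_D (r n) (c n i) i
  have h2 := key n i
  have h3 : (1 / 2 : ℝ) ^ k ≤ (1 / 2 : ℝ) ^ (i : ℕ) :=
    pow_le_pow_of_le_one (by norm_num) (by norm_num) i.2.le
  have h4 : (0 : ℝ) < (1 / 2 : ℝ) ^ k := by positivity
  rw [dist_eq]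
  nlinarith

end Torus

/-- **Disproof of Q1.**  There is a compact geodesic metric space with a transitive isometry group
on which, for every `k`, the robber has a winning strategy against `k` cops; in particular no
finite number of cops can win and the cop number is infinite. -/
theorem result : ∃ (X : Type) (_ : MetricSpace X), IsGameSpace X ∧ IsHomogeneous X ∧
    (∀ k : ℕ, RobberWins X k) ∧ (∀ k : ℕ, ¬ CopsWin X k) ∧ copNumber X = ⊤ := by
  refine ⟨Torus, inferInstance, Torus.isGameSpace, Torus.isHomogeneous, Torus.robberWins,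
    fun k => not_copsWin_of_robberWins (Torus.robberWins k), ?_⟩
  unfold copNumber
  rw [iInf_eq_top]
  rintro ⟨k, _, hk⟩
  exact absurd hk (not_copsWin_of_robberWins (Torus.robberWins k))

end Pool.Agent.Results.MP_cb1e0a_co.InfiniteTorus
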